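import Pool.Agent.H5.Mal.Cert

set_option autoImplicit false

/-!
4-connectivity of the 69-vertex graph from the path certificates.
-/

namespace Pool.Agent.H5.Mal

theorem allBelow_spec {k : Nat} {p : Nat → Bool} (h : allBelow k p = true) :
    ∀ i, i < k → p i = true := by
  induction k with
  | zero => intro i hi; omega
  | succ k ih =>
    intro i hi
    simp only [allBelow, Bool.and_eq_true] at h
    rcases Nat.lt_succ_iff_lt_or_eq.mp hi with h1 | h1
    · exact ih h.2 i h1
    · rw [h1]; exact h.1

theorem allBits_spec {f : Nat} : ∀ {m : Nat} {p : Nat → Bool}, allBits f m p = true →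
    ∀ i, m.testBit i = true → p i = true := by
  induction f with
  | zero =>
    intro m p h i hi
    simp only [allBits] at h
    have h0 : m = 0 := Nat.eq_of_beq_eq_true h
    rw [h0] at hi
    simp at hi
  | succ f ih =>
    intro m p h i hi
    simp only [allBits, Bool.or_eq_true, Bool.and_eq_true] at h
    rcases h with h | h
    · have h0 : m = 0 := Nat.eq_of_beq_eq_true h
      rw [h0] at hi
      simp at hi
    · by_cases hil : i = Nat.log2 m
      · rw [hil]; exact h.1
      · apply ih h.2 i
        rw [Nat.testBit_xor, hi, Nat.one_shiftLeft, Nat.testBit_two_pow_of_ne (Ne.symm hil)]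
        rfl

theorem row_lt (a : Nat) : row a < 2 ^ 69 := Nat.mod_lt _ (by positivity)

theorem adjb_lt_right {a b : Nat} (h : adjb a b = true) : b < 69 := by
  by_contra hb
  have h1 : (row a).testBit b = false := by
    apply Nat.testBit_lt_two_pow
    exact lt_of_lt_of_le (row_lt a) (Nat.pow_le_pow_right (by norm_num) (by omega))
  rw [adjb] at h
  rw [h1] at h
  exact absurd h (by simp)

theorem symm_check :
    allBelow 69 (fun a => allBelow 69 (fun b => adjb a b == adjb b a)) = true := by
  decide +kernel

theorem irr_check : allBelow 69 (fun a => !(adjb a a)) = true := by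
  decide +kernel

/-- The graph on 69 vertices. -/
def G : SimpleGraph (Fin 69) where
  Adj a b := adjb a b = true
  symm := by
    refine ⟨?_⟩
    intro a b h
    have h1 := allBelow_spec (allBelow_spec symm_check a a.2) b b.2
    simp only [beq_iff_eq] at h1
    rw [← h1]; exact h
  loopless := by
    refine ⟨?_⟩
    intro a h
    have h1 := allBelow_spec irr_check a a.2
    simp only [Bool.not_eq_true'] at h1
    rw [h1] at h
    exact absurd h (by simp)

theorem G_adj (a b : Fin 69) : G.Adj a b ↔ adjb a b = true := Iff.rfl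

/-- `a, l, b` is a path along edges. -/
def chainOK : Nat → List Nat → Nat → Bool
  | a, [], b => adjb a b
  | a, x :: l, b => adjb a x && chainOK x l b

/-- Repetition-freeness relative to the mask `m`. -/
def nd : Nat → List Nat → Bool
  | _, [] => true
  | m, x :: l => !(m.testBit x) && nd (m ||| (1 <<< x)) l

/-- Four internally disjoint paths from `x` to `r`. -/
def sysOK (r x : Nat) (s : List (List Nat)) : Bool :=
  Nat.beq s.length 4 && (s.all (fun p => chainOK x p r) && nd 0 s.flatten)

/-- Checks a list of path systems for the vertices `x, x + 1, ...`. -/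
def certOK (r : Nat) : Nat → List (List (List Nat)) → Bool
  | x, [] => Nat.beq x 69
  | x, s :: t => (Nat.beq x r || sysOK r x s) && certOK r (x + 1) t

theorem nd_spec : ∀ (l : List Nat) (m : Nat), nd m l = true →
    l.Nodup ∧ ∀ x ∈ l, m.testBit x = false := by
  intro l
  induction l with
  | nil => intro m _; exact ⟨List.nodup_nil, by simp⟩
  | cons x l ih =>
    intro m h
    simp only [nd, Bool.and_eq_true, Bool.not_eq_true'] at h
    obtain ⟨h1, h2⟩ := ih _ h.2
    have h3 : ∀ y ∈ l, m.testBit y = false ∧ x ≠ y := by
      intro y hy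
      have := h2 y hy
      rw [Nat.testBit_or, Bool.or_eq_false_iff, Nat.one_shiftLeft] at this
      refine ⟨this.1, ?_⟩
      rintro rfl
      have h4 := this.2
      rw [Nat.testBit_two_pow_self] at h4
      exact absurd h4 (by simp)
    refine ⟨?_, ?_⟩
    · rw [List.nodup_cons]
      refine ⟨?_, h1⟩
      intro hx
      exact (h3 x hx).2 rfl
    · intro y hy
      rcases List.mem_cons.mp hy with rfl | hy
      · exact h.1
      · exact (h3 y hy).1

theorem meets_card (S : Finset Nat) : ∀ (s : List (List Nat)), s.flatten.Nodup →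
    (∀ p ∈ s, ∃ x ∈ p, x ∈ S) → s.length ≤ (s.flatten.toFinset ∩ S).card := by
  intro s
  induction s with
  | nil => intro _ _; simp
  | cons p s ih =>
    intro hn hm
    rw [List.flatten_cons] at hn
    rw [List.nodup_append] at hn
    have h1 := ih hn.2.1 (fun q hq => hm q (List.mem_cons_of_mem _ hq))
    obtain ⟨x, hx, hxS⟩ := hm p List.mem_cons_self
    have h2 : x ∉ s.flatten.toFinset ∩ S := by
      intro hh
      have : x ∈ s.flatten := List.mem_toFinset.mp (Finset.mem_inter.mp hh).1
      exact hn.2.2 x hx x this rfl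
    have h3 : insert x (s.flatten.toFinset ∩ S) ⊆ (p :: s).flatten.toFinset ∩ S := by
      intro y hy
      rcases Finset.mem_insert.mp hy with rfl | hy
      · refine Finset.mem_inter.mpr ⟨?_, hxS⟩
        rw [List.mem_toFinset, List.flatten_cons]
        exact List.mem_append_left _ hx
      · obtain ⟨ha, hb⟩ := Finset.mem_inter.mp hy
        refine Finset.mem_inter.mpr ⟨?_, hb⟩
        rw [List.mem_toFinset, List.flatten_cons]
        exact List.mem_append_right _ (List.mem_toFinset.mp ha)
    have h4 := Finset.card_le_card h3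
    rw [Finset.card_insert_of_notMem h2] at h4
    simp only [List.length_cons]
    omega

theorem chain_reach (S : Finset (Fin 69)) (b : Fin 69) (hb : b ∉ S) :
    ∀ (p : List Nat) (a : Fin 69) (ha : a ∉ S), chainOK a p b = true →
      (∀ x ∈ p, x ∉ S.image Fin.val) →
      (G.induce ((S : Set (Fin 69))ᶜ)).Reachable ⟨a, by simpa using ha⟩ ⟨b, by simpa using hb⟩ := by
  intro p
  induction p with
  | nil =>
    intro a ha h _
    apply SimpleGraph.Adj.reachable
    simp only [chainOK] at h
    exact h
  | cons x l ih =>
    intro a ha h hS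
    simp only [chainOK, Bool.and_eq_true] at h
    have hx : x < 69 := adjb_lt_right h.1
    have hxS : (⟨x, hx⟩ : Fin 69) ∉ S := by
      intro hh
      exact hS x List.mem_cons_self (Finset.mem_image.mpr ⟨_, hh, rfl⟩)
    have h1 := ih ⟨x, hx⟩ hxS h.2 (fun y hy => hS y (List.mem_cons_of_mem _ hy))
    refine SimpleGraph.Reachable.trans (SimpleGraph.Adj.reachable ?_) h1
    exact h.1

theorem certOK_spec (r : Nat) : ∀ (t : List (List (List Nat))) (x0 : Nat), certOK r x0 t = true →
    ∀ x, x0 ≤ x → x < 69 → x ≠ r → ∃ s, sysOK r x s = true := by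
  intro t
  induction t with
  | nil =>
    intro x0 h x h1 h2 _
    simp only [certOK] at h
    have := Nat.eq_of_beq_eq_true h
    omega
  | cons s t ih =>
    intro x0 h x h1 h2 h3
    simp only [certOK, Bool.and_eq_true, Bool.or_eq_true] at h
    by_cases hx : x = x0
    · subst hx
      rcases h.1 with h4 | h4
      · exact absurd (Nat.eq_of_beq_eq_true h4) h3
      · exact ⟨s, h4⟩
    · exact ih (x0 + 1) h.2 x (by omega) h2 h3

theorem cert_check0 : certOK 0 0 cert0 = true := by decide +kernel
theorem cert_check1 : certOK 1 0 cert1 = true := by decide +kernel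
theorem cert_check2 : certOK 2 0 cert2 = true := by decide +kernel
theorem cert_check3 : certOK 3 0 cert3 = true := by decide +kernel

theorem reach_root (r : Fin 69) (hr : ∀ x, x < 69 → x ≠ (r : Nat) → ∃ s, sysOK r x s = true)
    (S : Finset (Fin 69)) (hS : S.card ≤ 3) (hrS : r ∉ S) (x : Fin 69) (hx : x ∉ S) :
    (G.induce ((S : Set (Fin 69))ᶜ)).Reachable ⟨x, by simpa using hx⟩
      ⟨r, by simpa using hrS⟩ := by
  by_cases hxr : x = r
  · subst hxr; exact SimpleGraph.Reachable.refl _
  obtain ⟨s, hs⟩ := hr x x.2 (fun h => hxr (Fin.ext h))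
  simp only [sysOK, Bool.and_eq_true, List.all_eq_true] at hs
  obtain ⟨h1, h2, h3⟩ := hs
  have h4 : s.length = 4 := Nat.eq_of_beq_eq_true h1
  obtain ⟨h5, _⟩ := nd_spec _ _ h3
  by_cases hm : ∀ p ∈ s, ∃ y ∈ p, y ∈ S.image Fin.val
  · exfalso
    have h6 := meets_card (S.image Fin.val) s h5 hm
    have h7 : (s.flatten.toFinset ∩ S.image Fin.val).card ≤ 3 :=
      le_trans (Finset.card_le_card Finset.inter_subset_right)
        (le_trans Finset.card_image_le hS)
    omega
  · push Not at hm
    obtain ⟨p, hp, hpS⟩ := hm
    exact chain_reach S r hrS p x hx (h2 p hp) hpS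

theorem conn_of_root (r : Fin 69) (hr : ∀ x, x < 69 → x ≠ (r : Nat) → ∃ s, sysOK r x s = true)
    (S : Finset (Fin 69)) (hS : S.card ≤ 3) (hrS : r ∉ S) :
    (G.induce ((S : Set (Fin 69))ᶜ)).Connected := by
  rw [SimpleGraph.connected_iff_exists_forall_reachable]
  refine ⟨⟨r, by simpa using hrS⟩, ?_⟩
  rintro ⟨x, hx⟩
  exact (reach_root r hr S hS hrS x (by simpa using hx)).symm

theorem G_conn (S : Finset (Fin 69)) (hS : S.card ≤ 3) :
    (G.induce ((S : Set (Fin 69))ᶜ)).Connected := by
  by_cases h0 : (0 : Fin 69) ∈ S
  · by_cases h1 : (1 : Fin 69) ∈ S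
    · by_cases h2 : (2 : Fin 69) ∈ S
      · by_cases h3 : (3 : Fin 69) ∈ S
        · exfalso
          have : ({0, 1, 2, 3} : Finset (Fin 69)) ⊆ S := by
            intro y hy
            simp only [Finset.mem_insert, Finset.mem_singleton] at hy
            rcases hy with rfl | rfl | rfl | rfl <;> assumption
          have h4 := Finset.card_le_card this
          have h5 : ({0, 1, 2, 3} : Finset (Fin 69)).card = 4 := by decide
          omega
        · exact conn_of_root 3 (fun x hx hne => certOK_spec _ _ 0 cert_check3 x (by omega) hx hne)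
            S hS h3
      · exact conn_of_root 2 (fun x hx hne => certOK_spec _ _ 0 cert_check2 x (by omega) hx hne)
          S hS h2
    · exact conn_of_root 1 (fun x hx hne => certOK_spec _ _ 0 cert_check1 x (by omega) hx hne)
        S hS h1
  · exact conn_of_root 0 (fun x hx hne => certOK_spec _ _ 0 cert_check0 x (by omega) hx hne)
      S hS h0

end Pool.Agent.H5.Mal
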