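import Pool.Agent.H5.Mal.Conn

set_option autoImplicit false

/-!
The 69-vertex graph with vertex 0 deleted has no cycle of length 7.
-/

namespace Pool.Agent.H5.Mal

theorem cyc_check :
    allBelow 68 (fun s => ext 6 (s + 1) (s + 1) (2 ^ 69 - 2 ^ (s + 2))) = true := by
  decide +kernel

theorem mask_check : allBelow 69 (fun j => allBelow 69 (fun y =>
    Nat.blt y (j + 1) || (2 ^ 69 - 2 ^ (j + 1)).testBit y)) = true := by
  decide +kernel

theorem ext_spec : ∀ (k : Nat) (g : Nat → Nat) (s free : Nat), ext k s (g 0) free = true →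
    (∀ i, i < k → adjb (g i) (g (i + 1)) = true) →
    (∀ i j, 1 ≤ i → i ≤ k → 1 ≤ j → j ≤ k → g i = g j → i = j) →
    (∀ i, 1 ≤ i → i ≤ k → free.testBit (g i) = true) → adjb (g k) s = false := by
  intro k
  induction k with
  | zero =>
    intro g s free h _ _ _
    simpa [ext] using h
  | succ k ih =>
    intro g s free h hadj hinj hfree
    simp only [ext] at h
    have h1 : (row (g 0) &&& free).testBit (g 1) = true := by
      rw [Nat.testBit_and, hfree 1 le_rfl (by omega)]
      have := hadj 0 (by omega)
      simpa [adjb] using this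
    have h2 := allBits_spec h (g 1) h1
    have h3 := ih (fun i => g (i + 1)) s (free ^^^ (1 <<< (g 1))) (by simpa using h2)
      (fun i hi => hadj (i + 1) (by omega))
      (fun i j hi hi' hj hj' hij => by
        have := hinj (i + 1) (j + 1) (by omega) (by omega) (by omega) (by omega) hij
        omega)
      (fun i hi hi' => by
        have hne : g 1 ≠ g (i + 1) := by
          intro hh
          have := hinj 1 (i + 1) le_rfl (by omega) (by omega) (by omega) hh
          omega
        rw [Nat.testBit_xor, hfree (i + 1) (by omega) (by omega), Nat.one_shiftLeft,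
          Nat.testBit_two_pow_of_ne hne]
        rfl)
    exact h3

/-- No cycle of length 7 whose vertices are all different from 0. -/
theorem no_cycle (u : Fin 69) (c : G.Walk u u) (hc : c.IsCycle) (hl : c.length = 7)
    (h0 : ∀ x ∈ c.support, x ≠ 0) : False := by
  classical
  -- the least vertex of the cycle
  obtain ⟨w, hw, hmin⟩ : ∃ w ∈ c.support, ∀ x ∈ c.support, w ≤ x := by
    obtain ⟨w, hw, hmin⟩ := Finset.exists_min_image c.support.toFinset (fun x => x)
      ⟨u, by simp⟩
    exact ⟨w, by simpa using hw, fun x hx => hmin x (by simpa using hx)⟩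
  let d := c.rotate w hw
  have hd : d.IsCycle := hc.rotate hw
  have hdl : d.length = 7 := by
    rw [← hl]
    have h1 := (c.rotate_darts w hw).perm.length_eq
    rw [SimpleGraph.Walk.length_darts, SimpleGraph.Walk.length_darts] at h1
    exact h1
  have hds : ∀ x ∈ d.support, x ∈ c.support := by
    intro x hx
    have h1 : d.support = w :: d.support.tail := by
      exact (SimpleGraph.Walk.cons_tail_support d).symm
    rw [h1] at hx
    rcases List.mem_cons.mp hx with rfl | hx
    · exact hw
    · have := ((c.support_rotate w hw).perm.mem_iff (a := x)).mp hx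
      exact List.mem_of_mem_tail this
  have hw0 : w ≠ 0 := h0 w hw
  have hwpos : 0 < (w : Nat) := Nat.pos_of_ne_zero (fun h => hw0 (Fin.ext h))
  set g : Nat → Nat := fun i => (d.getVert i : Fin 69).val with hg
  have hinj := hd.getVert_injOn
  have hg0 : g 0 = w := by simp [hg]
  have hg7 : g 7 = w := by
    have : d.getVert 7 = w := by
      rw [← hdl]; exact d.getVert_length
    simp [hg, this]
  have hsup : ∀ i, i ≤ 7 → d.getVert i ∈ d.support := fun i _ => d.getVert_mem_support i
  have hgt : ∀ i, 1 ≤ i → i ≤ 6 → (w : Nat) < g i := by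
    intro i hi hi'
    have h1 : w ≤ d.getVert i := hmin _ (hds _ (hsup i (by omega)))
    have h2 : d.getVert i ≠ w := by
      intro hh
      have h3 : d.getVert i = d.getVert 7 := by
        rw [hh, ← hdl, d.getVert_length]
      have h4 := hinj (show i ∈ {i | 1 ≤ i ∧ i ≤ d.length} from ⟨hi, by omega⟩)
        (show 7 ∈ {i | 1 ≤ i ∧ i ≤ d.length} from ⟨by omega, by omega⟩) h3
      omega
    have h5 : (w : Nat) ≤ (d.getVert i).val := h1
    have h6 : (w : Nat) ≠ (d.getVert i).val := fun h => h2 (Fin.ext h.symm)
    show (w : Nat) < (d.getVert i).val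
    omega
  obtain ⟨s, hs⟩ : ∃ s, (w : Nat) = s + 1 := ⟨(w : Nat) - 1, by omega⟩
  have hwlt : (w : Nat) < 69 := w.2
  have hck := allBelow_spec cyc_check s (by omega)
  have h8 := ext_spec 6 g (s + 1) (2 ^ 69 - 2 ^ (s + 2)) (by rw [hg0, hs]; exact hck)
    (fun i hi => by
      have := d.adj_getVert_succ (show i < d.length by omega)
      exact this)
    (fun i j hi hi' hj hj' hij => by
      have h9 : d.getVert i = d.getVert j := Fin.ext hij
      exact hinj (show i ∈ {i | 1 ≤ i ∧ i ≤ d.length} from ⟨hi, by omega⟩)
        (show j ∈ {i | 1 ≤ i ∧ i ≤ d.length} from ⟨hj, by omega⟩) h9)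
    (fun i hi hi' => by
      have h9 := hgt i hi hi'
      have h10 : g i < 69 := (d.getVert i).2
      have h11 := allBelow_spec (allBelow_spec mask_check (s + 1) (by omega)) (g i) h10
      simp only [Bool.or_eq_true] at h11
      rcases h11 with h11 | h11
      · have := Nat.blt_eq.mp h11
        omega
      · exact h11)
  have h12 := d.adj_getVert_succ (show 6 < d.length by omega)
  have h13 : adjb (g 6) (g 7) = true := h12
  rw [hg7, hs] at h13
  rw [h8] at h13
  exact absurd h13 (by simp)

end Pool.Agent.H5.Mal
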