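import Mathlib

set_option autoImplicit false

/-!
Data of a 4-connected planar graph on 69 vertices: the adjacency matrix as one number, the
coordinates of a straight-line drawing, and the check functions that the other files use.
Vertex 0 is the vertex that gets deleted.
-/

namespace Pool.Agent.H5.Mal

/-- Adjacency matrix: bit `69 * a + b` is set when `a` and `b` are adjacent. -/
def mat : Nat := 0xb8000000000000000b4000000000000000a80000000004000007a000000000000000128000000000000010c810000000000000000b8000000000000000b4000000000000020284000000000000103a000000000000000128000000002000001c800000000000000000b8000000000000000b4000000000000804280000000000004003a000000000000000128000000040000000c810000000000000000b8000000000000000b4000000000020000284000000000100003a000000000000000128000000080000001c800000000000000000b8000000000000000b4000000000800004280000000004000003a000000000000000128000001000000000c810000000000000000b8000000000000000b4000000020000000284000000100000003a000000000000000128000002000000001c800000000000000000b8000000000000000b4000000800000004280000004000000003a000000000000000128000040000000000c810000000000000000b8000000000000000b4000024000000000280000100000000003a000000000000000128000080000000001c800000000000000000f0000002000000000a8000000040000000680000000000000002a8000000000000001a000800000000000003c000000000000000aa0000000080000001a0000000001000000a80000000000000006880000000000000000f0000000000000000a8800000000000000e80000000002000002a0000000000040001a000000000000000003c1000000000000002a0000000000000801a0000000000000008a800000000000800068c30c30c30c3000000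

/-- x-coordinates, 12 bits each. -/
def xs : Nat := 0xddbe44dfeddcd51dfdeb0ef6f29ed0e73e86ef2f26f3cf01eb2eeeef2f26f3cf02eb2eeeeb0ef6f29ed1e73e86ddbe44dfeddcd51dfd6eca3ac3b9126e717e6eca3ac3b9126e717ed99dc7de8d8ed27d99d8dde8dc7d27b16af8bb1b8ea21b16b8ebb1af8a20fa0

/-- y-coordinates, 12 bits each. -/
def ys : Nat := 0x8ac89691d8c98c388d8158027ee80881a8307e07db7de7e07e87da7c07c57c27c07b87c678b79e7b27987857706f470a6836d76dd71327806245a2b3396339d28f3eb46ceec0ac6881781d8077fe83b7897a179978376569d7046e76955f390390b8b989c9ad7d0

/-- The neighbourhood of `a` as a bit mask. -/
def row (a : Nat) : Nat := (mat >>> (69 * a)) % (2 ^ 69)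

/-- Adjacency. -/
def adjb (a b : Nat) : Bool := (row a).testBit b

/-- x-coordinate of vertex `a`. -/
def X (a : Nat) : Nat := (xs >>> (12 * a)) % 4096

/-- y-coordinate of vertex `a`. -/
def Y (a : Nat) : Nat := (ys >>> (12 * a)) % 4096

/-- `allBits f m p` checks `p` on the set bits of `m` (`f` is fuel). -/
def allBits : Nat → Nat → (Nat → Bool) → Bool
  | 0, m, _ => Nat.beq m 0
  | f + 1, m, p => Nat.beq m 0 || (p (Nat.log2 m) && allBits f (m ^^^ (1 <<< Nat.log2 m)) p)

/-- Checks `p` on all numbers below `k`. -/
def allBelow : Nat → (Nat → Bool) → Bool
  | 0, _ => true
  | k + 1, p => p k && allBelow k p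

/-- `ext k s x free`: no path of `k` further vertices from `free` starting at `x` ends in a neighbour
of `s`. -/
def ext : Nat → Nat → Nat → Nat → Bool
  | 0, s, x, _ => !(adjb x s)
  | k + 1, s, x, free => allBits 5 (row x &&& free) (fun y => ext k s y (free ^^^ (1 <<< y)))

end Pool.Agent.H5.Mal
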