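import Pool.Agent.H5.Mal.Conn

set_option autoImplicit false

/-!
A straight-line drawing of the 69-vertex graph without crossings.
-/

namespace Pool.Agent.H5.Mal

/-- Counterclockwise turn. -/
def ccw (a b c : Nat) : Bool :=
  Nat.blt (X a * Y c + X b * Y a + X c * Y b) (X a * Y b + X b * Y c + X c * Y a)

/-- Clockwise turn. -/
def cw (a b c : Nat) : Bool :=
  Nat.blt (X a * Y b + X b * Y c + X c * Y a) (X a * Y c + X b * Y a + X c * Y b)

/-- The line through one of the segments has the other segment strictly on one side. -/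
def sep (a b c d : Nat) : Bool :=
  (ccw a b c && ccw a b d) || (cw a b c && cw a b d) ||
  (ccw c d a && ccw c d b) || (cw c d a && cw c d b)

/-- The neighbours of `a` larger than `a`. -/
def rowU (a : Nat) : Nat := (row a >>> (a + 1)) <<< (a + 1)

theorem pl1 : allBelow 69 (fun a => allBits 16 (rowU a) (fun b => allBelow 69 (fun w =>
    Nat.beq w a || Nat.beq w b || ccw a b w || cw a b w))) = true := by
  decide +kernel

theorem pl2 : allBelow 69 (fun a => allBits 16 (rowU a) (fun b => allBelow 69 (fun c =>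
    allBits 16 (rowU c) (fun d =>
      Nat.beq c a || Nat.beq c b || Nat.beq d a || Nat.beq d b || sep a b c d)))) = true := by
  decide +kernel

theorem pl0 : allBelow 69 (fun a => allBelow 69 (fun b =>
    Nat.beq a b || !(Nat.beq (X a) (X b) && Nat.beq (Y a) (Y b)))) = true := by
  decide +kernel

/-- The orientation determinant. -/
def D (p q r : ℝ × ℝ) : ℝ := (q.1 - p.1) * (r.2 - p.2) - (q.2 - p.2) * (r.1 - p.1)

/-- Position of a vertex. -/
noncomputable def pos (a : Fin 69) : ℝ × ℝ := ((X a : ℝ), (Y a : ℝ))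

theorem ccw_pos (a b c : Fin 69) (h : ccw a b c = true) : 0 < D (pos a) (pos b) (pos c) := by
  have h1 : X a * Y c + X b * Y a + X c * Y b < X a * Y b + X b * Y c + X c * Y a := by
    simpa [ccw] using h
  have h2 : ((X a * Y c + X b * Y a + X c * Y b : ℕ) : ℝ) <
      ((X a * Y b + X b * Y c + X c * Y a : ℕ) : ℝ) := by exact_mod_cast h1
  push_cast at h2
  simp only [D, pos]
  nlinarith

theorem cw_neg (a b c : Fin 69) (h : cw a b c = true) : D (pos a) (pos b) (pos c) < 0 := by
  have h1 : X a * Y b + X b * Y c + X c * Y a < X a * Y c + X b * Y a + X c * Y b := by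
    simpa [cw] using h
  have h2 : ((X a * Y b + X b * Y c + X c * Y a : ℕ) : ℝ) <
      ((X a * Y c + X b * Y a + X c * Y b : ℕ) : ℝ) := by exact_mod_cast h1
  push_cast at h2
  simp only [D, pos]
  nlinarith

theorem adj_rowU {a b : Nat} (h : adjb a b = true) (hab : a < b) : (rowU a).testBit b = true := by
  rw [rowU, Nat.testBit_shiftLeft, Nat.testBit_shiftRight]
  have h1 : a + 1 + (b - (a + 1)) = b := by omega
  rw [h1]
  simp only [adjb] at h
  rw [h]
  simp
  omega

theorem vert_edge' (a b w : Fin 69) (h : G.Adj a b) (hab : a < b) (hwa : w ≠ a) (hwb : w ≠ b) :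
    D (pos a) (pos b) (pos w) ≠ 0 := by
  have h1 := allBelow_spec (allBits_spec (allBelow_spec pl1 a a.2) b (adj_rowU h hab)) w w.2
  simp only [Bool.or_eq_true] at h1
  rcases h1 with ((h1 | h1) | h1) | h1
  · exact absurd (Fin.ext (Nat.eq_of_beq_eq_true h1)) hwa
  · exact absurd (Fin.ext (Nat.eq_of_beq_eq_true h1)) hwb
  · exact (ccw_pos a b w h1).ne'
  · exact (cw_neg a b w h1).ne

theorem D_swap (p q r : ℝ × ℝ) : D q p r = - D p q r := by
  simp only [D]; ring

theorem vert_edge (a b w : Fin 69) (h : G.Adj a b) (hwa : w ≠ a) (hwb : w ≠ b) :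
    D (pos a) (pos b) (pos w) ≠ 0 := by
  rcases lt_trichotomy a b with h1 | h1 | h1
  · exact vert_edge' a b w h h1 hwa hwb
  · exact absurd h1 h.ne
  · have := vert_edge' b a w h.symm h1 hwb hwa
    rw [D_swap] at this
    exact fun h => this (by rw [h, neg_zero])

/-- The separation property of two segments. -/
def Sep (p q r s : ℝ × ℝ) : Prop :=
  (0 < D p q r ∧ 0 < D p q s) ∨ (D p q r < 0 ∧ D p q s < 0) ∨
  (0 < D r s p ∧ 0 < D r s q) ∨ (D r s p < 0 ∧ D r s q < 0)

theorem Sep.swapl {p q r s : ℝ × ℝ} (h : Sep p q r s) : Sep q p r s := by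
  unfold Sep at h ⊢
  rw [D_swap p q r, D_swap p q s]
  rcases h with h | h | h | h
  · right; left; constructor <;> linarith [h.1, h.2]
  · left; constructor <;> linarith [h.1, h.2]
  · right; right; left; exact ⟨h.2, h.1⟩
  · right; right; right; exact ⟨h.2, h.1⟩

theorem Sep.symm {p q r s : ℝ × ℝ} (h : Sep p q r s) : Sep r s p q := by
  unfold Sep at h ⊢
  tauto

theorem Sep.swapr {p q r s : ℝ × ℝ} (h : Sep p q r s) : Sep p q s r := h.symm.swapl.symm

theorem sep_uu (a b c d : Fin 69) (h : G.Adj a b) (hab : a < b) (h' : G.Adj c d) (hcd : c < d)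
    (h1 : a ≠ c) (h2 : a ≠ d) (h3 : b ≠ c) (h4 : b ≠ d) : Sep (pos a) (pos b) (pos c) (pos d) := by
  have h5 := allBits_spec (allBelow_spec (allBits_spec (allBelow_spec pl2 a a.2) b
    (adj_rowU h hab)) c c.2) d (adj_rowU h' hcd)
  simp only [Bool.or_eq_true] at h5
  rcases h5 with (((h5 | h5) | h5) | h5) | h5
  · exact absurd (Fin.ext (Nat.eq_of_beq_eq_true h5)).symm h1
  · exact absurd (Fin.ext (Nat.eq_of_beq_eq_true h5)).symm h3
  · exact absurd (Fin.ext (Nat.eq_of_beq_eq_true h5)).symm h2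
  · exact absurd (Fin.ext (Nat.eq_of_beq_eq_true h5)).symm h4
  · simp only [sep, Bool.or_eq_true, Bool.and_eq_true] at h5
    rcases h5 with ((h5 | h5) | h5) | h5
    · left; exact ⟨ccw_pos _ _ _ h5.1, ccw_pos _ _ _ h5.2⟩
    · right; left; exact ⟨cw_neg _ _ _ h5.1, cw_neg _ _ _ h5.2⟩
    · right; right; left; exact ⟨ccw_pos _ _ _ h5.1, ccw_pos _ _ _ h5.2⟩
    · right; right; right; exact ⟨cw_neg _ _ _ h5.1, cw_neg _ _ _ h5.2⟩

theorem sep_u (a b c d : Fin 69) (h : G.Adj a b) (hab : a < b) (h' : G.Adj c d)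
    (h1 : a ≠ c) (h2 : a ≠ d) (h3 : b ≠ c) (h4 : b ≠ d) : Sep (pos a) (pos b) (pos c) (pos d) := by
  rcases lt_trichotomy c d with h5 | h5 | h5
  · exact sep_uu a b c d h hab h' h5 h1 h2 h3 h4
  · exact absurd h5 h'.ne
  · exact (sep_uu a b d c h hab h'.symm h5 h2 h1 h4 h3).swapr

theorem sep_all (a b c d : Fin 69) (h : G.Adj a b) (h' : G.Adj c d)
    (h1 : a ≠ c) (h2 : a ≠ d) (h3 : b ≠ c) (h4 : b ≠ d) : Sep (pos a) (pos b) (pos c) (pos d) := by
  rcases lt_trichotomy a b with h5 | h5 | h5
  · exact sep_u a b c d h h5 h' h1 h2 h3 h4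
  · exact absurd h5 h.ne
  · exact (sep_u b a c d h.symm h5 h' h3 h4 h1 h2).swapl

theorem pos_inj : Function.Injective pos := by
  intro a b h
  have h1 := allBelow_spec (allBelow_spec pl0 a a.2) b b.2
  simp only [Bool.or_eq_true, Bool.not_eq_true', Bool.and_eq_false_iff] at h1
  simp only [pos, Prod.mk.injEq, Nat.cast_inj] at h
  rcases h1 with h1 | h1 | h1
  · exact Fin.ext (Nat.eq_of_beq_eq_true h1)
  · rw [h.1] at h1
    simp at h1
  · rw [h.2] at h1
    simp at h1

/-- The straight segment from `p` to `q`. -/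
noncomputable def seg (p q : ℝ × ℝ) : C(unitInterval, ℝ × ℝ) where
  toFun t := ((1 - (t : ℝ)) * p.1 + (t : ℝ) * q.1, (1 - (t : ℝ)) * p.2 + (t : ℝ) * q.2)
  continuous_toFun := by fun_prop

theorem D_seg_self (p q : ℝ × ℝ) (t : unitInterval) : D p q (seg p q t) = 0 := by
  simp only [D, seg, ContinuousMap.coe_mk]; ring

theorem D_seg (p q r s : ℝ × ℝ) (t : unitInterval) :
    D p q (seg r s t) = (1 - (t : ℝ)) * D p q r + (t : ℝ) * D p q s := by
  simp only [D, seg, ContinuousMap.coe_mk]; ring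

theorem D_pp (p q : ℝ × ℝ) : D p q p = 0 := by simp only [D]; ring
theorem D_qq (p q : ℝ × ℝ) : D p q q = 0 := by simp only [D]; ring

theorem t_pos {t : unitInterval} (h : t ≠ 0) : 0 < (t : ℝ) :=
  lt_of_le_of_ne t.2.1 (fun hh => h (Subtype.ext hh.symm))

theorem t_lt {t : unitInterval} (h : t ≠ 1) : (t : ℝ) < 1 :=
  lt_of_le_of_ne t.2.2 (fun hh => h (Subtype.ext hh))

theorem Sep.disj {p q r s : ℝ × ℝ} (h : Sep p q r s) (t t' : unitInterval) :
    seg p q t ≠ seg r s t' := by
  intro hh
  have h1 : D p q (seg r s t') = 0 := by rw [← hh]; exact D_seg_self p q t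
  have h2 : D r s (seg p q t) = 0 := by rw [hh]; exact D_seg_self r s t'
  rw [D_seg] at h1 h2
  have a0 := t.2.1
  have a1 := t.2.2
  have b0 := t'.2.1
  have b1 := t'.2.2
  have key : ∀ (τ x y : ℝ), 0 ≤ τ → τ ≤ 1 → 0 < x → 0 < y → 0 < (1 - τ) * x + τ * y := by
    intro τ x y h0 h1 hx hy
    rcases h0.eq_or_lt with h | h
    · rw [← h]; simpa using hx
    · have : 0 ≤ (1 - τ) * x := mul_nonneg (by linarith) hx.le
      have : 0 < τ * y := mul_pos h hy
      linarith
  rcases h with h | h | h | h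
  · have := key t' _ _ b0 b1 h.1 h.2
    linarith
  · have := key t' (-D p q r) (-D p q s) b0 b1 (by linarith [h.1]) (by linarith [h.2])
    linarith
  · have := key t _ _ a0 a1 h.1 h.2
    linarith
  · have := key t (-D r s p) (-D r s q) a0 a1 (by linarith [h.1]) (by linarith [h.2])
    linarith

/-- Two segments from a common point `p` in different directions meet only in `p`. -/
theorem share (p q s : ℝ × ℝ) (h : D p q s ≠ 0) (t t' : unitInterval) (ht' : t' ≠ 0) :
    seg p q t ≠ seg p s t' := by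
  intro hh
  have h1 : D p q (seg p s t') = 0 := by rw [← hh]; exact D_seg_self p q t
  rw [D_seg, D_pp, mul_zero, zero_add] at h1
  rcases mul_eq_zero.mp h1 with h2 | h2
  · exact (t_pos ht').ne' h2
  · exact h h2

theorem seg_symm (p q : ℝ × ℝ) (t : unitInterval) :
    seg q p t = seg p q (unitInterval.symm t) := by
  simp only [seg, ContinuousMap.coe_mk, unitInterval.coe_symm_eq]
  ext <;> simp only <;> ring

theorem seg_zero (p q : ℝ × ℝ) : seg p q 0 = p := by
  simp [seg]

theorem seg_one (p q : ℝ × ℝ) : seg p q 1 = q := by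
  simp [seg]

theorem seg_inj (p q : ℝ × ℝ) (h : p ≠ q) : Function.Injective (seg p q) := by
  intro t t' hh
  simp only [seg, ContinuousMap.coe_mk, Prod.mk.injEq] at hh
  by_contra hne
  have hne' : (t : ℝ) - t' ≠ 0 := fun h0 => hne (Subtype.ext (by linarith))
  apply h
  have h1 : ((t : ℝ) - t') * (q.1 - p.1) = 0 := by linarith [hh.1]
  have h2 : ((t : ℝ) - t') * (q.2 - p.2) = 0 := by linarith [hh.2]
  rcases mul_eq_zero.mp h1 with h3 | h3
  · exact absurd h3 hne'
  rcases mul_eq_zero.mp h2 with h4 | h4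
  · exact absurd h4 hne'
  exact Prod.ext (by linarith) (by linarith)

theorem symm_ne_zero {t : unitInterval} (h : t ≠ 1) : unitInterval.symm t ≠ 0 := by
  intro hh
  apply h
  have := congrArg unitInterval.symm hh
  simpa using this

/-- The planar drawing. -/
theorem G_planar :
    ∃ (f : Fin 69 → ℝ × ℝ) (γ : Fin 69 → Fin 69 → C(unitInterval, ℝ × ℝ)),
      Function.Injective f ∧
      (∀ u v, G.Adj u v →
        γ u v 0 = f u ∧ γ u v 1 = f v ∧ Function.Injective (γ u v) ∧
        (∀ t, γ v u t = γ u v (unitInterval.symm t)) ∧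
        (∀ t w, t ≠ 0 → t ≠ 1 → γ u v t ≠ f w)) ∧
      (∀ (u v x y : Fin 69) (t r : unitInterval), G.Adj u v → G.Adj x y →
        s(u, v) ≠ s(x, y) → t ≠ 0 → t ≠ 1 → r ≠ 0 → r ≠ 1 → γ u v t ≠ γ x y r) := by
  refine ⟨pos, fun u v => seg (pos u) (pos v), pos_inj, ?_, ?_⟩
  · intro u v huv
    have hne : pos u ≠ pos v := fun h => huv.ne (pos_inj h)
    refine ⟨seg_zero _ _, seg_one _ _, seg_inj _ _ hne, fun t => seg_symm _ _ t, ?_⟩
    intro t w h0 h1 hh
    by_cases hwu : w = u
    · subst hwu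
      have : seg (pos w) (pos v) t = seg (pos w) (pos v) 0 := by rw [hh, seg_zero]
      exact h0 (seg_inj _ _ hne this)
    by_cases hwv : w = v
    · subst hwv
      have : seg (pos u) (pos w) t = seg (pos u) (pos w) 1 := by rw [hh, seg_one]
      exact h1 (seg_inj _ _ hne this)
    have h2 := vert_edge u v w huv hwu hwv
    rw [← hh] at h2
    exact h2 (D_seg_self _ _ _)
  · intro u v x y t r huv hxy hne h0 h1 h2 h3 hh
    by_cases hux : u = x
    · subst hux
      have hvy : y ≠ v := fun h => hne (by rw [h])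
      exact share (pos u) (pos v) (pos y) (vert_edge u v y huv hxy.ne' hvy) t r h2 hh
    by_cases huy : u = y
    · subst huy
      have hvx : x ≠ v := fun h => hne (by rw [h, Sym2.eq_swap])
      rw [seg_symm (pos u) (pos x)] at hh
      exact share (pos u) (pos v) (pos x) (vert_edge u v x huv hxy.ne hvx) t _
        (symm_ne_zero h3) hh
    by_cases hvx : v = x
    · subst hvx
      have huy' : y ≠ u := fun h => huy h.symm
      rw [seg_symm (pos v) (pos u)] at hh
      exact share (pos v) (pos u) (pos y) (vert_edge v u y huv.symm hxy.ne' huy') _ r h2 hh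
    by_cases hvy : v = y
    · subst hvy
      have hux' : x ≠ u := fun h => hux h.symm
      rw [seg_symm (pos v) (pos u), seg_symm (pos v) (pos x)] at hh
      exact share (pos v) (pos u) (pos x) (vert_edge v u x huv.symm hxy.ne hux') _ _
        (symm_ne_zero h3) hh
    exact (sep_all u v x y huv hxy hux huy hvx hvy).disj t r hh

end Pool.Agent.H5.Mal
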